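import Pool.Agent.TH331.HV.Final

/-!
# Anchored thin triangles fail in the hyperbolic Poisson Voronoi graph

Definitions used (namespace `Pool.Agent.TH331.HV`, file `Defs`):

* `IsPoissonProcess P lam S`: `S` is a Poisson point process on the upper half plane `ℍ` (the
  hyperbolic plane of curvature `-1`) with intensity `lam` times the hyperbolic area.
* `cell S p`: the Voronoi cell of `p`.
* `vor S`: the dual graph of the Voronoi tessellation; two different nuclei are adjacent when the
  intersection of their cells has positive length.
* `ThinAt G x δ`: every geodesic triangle of `G` with vertex `x` is `δ`-thin.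
-/

open MeasureTheory UpperHalfPlane
open scoped NNReal UpperHalfPlane
open Pool.Agent.TH331.HV

namespace Pool.Agent.Results.MP_c20824_pr.AnchoredTriangles

/-- Let `S` be a Poisson point process on the hyperbolic plane with intensity `lam > 0` times the
area measure. Almost surely, the graph `vor S` is nonempty and connected and, for every vertex `x`
and every `δ`, there is a geodesic triangle in `vor S` with vertex `x` which is not `δ`-thin. -/
theorem result {Ω : Type*} [MeasurableSpace Ω] (P : Measure Ω) [IsProbabilityMeasure P]
    (lam : ℝ≥0) (hlam : 0 < lam) (S : Ω → Set ℍ) (hS : IsPoissonProcess P lam S) :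
    ∀ᵐ ω ∂P, (S ω).Nonempty ∧ (vor (S ω)).Connected ∧
      ∀ (x : S ω) (δ : ℕ), ¬ ThinAt (vor (S ω)) x δ :=
  final P lam hlam S hS

end Pool.Agent.Results.MP_c20824_pr.AnchoredTriangles
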